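import Pool.Agent.H1.Mono.Targets2

/-!
# Module AVG: the stopping time argument
-/

open Finset

namespace Pool.Agent.H26.Mono

open Pool.Agent.H1.Mono

theorem avg : AVG_target := by
  intro R Ω X _ _ _ _ al acc _ _ p hp hdep hdec hacc
  classical
  set N : ℕ := Fintype.card Ω with hN
  have hNpos : 0 < N := Fintype.card_pos
  let W : Fin R → Finset (Fin R → Ω) := fun t => univ.filter fun y =>
    al t.1 y ∧ 2 * (univ.filter fun ω : Ω => al (t.1 + 1) (Function.update y t ω)).card < N
  let D : Fin R → Finset (Fin R → Ω) := fun t => univ.filter fun y => al t.1 y ∧ ¬ al (t.1 + 1) y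
  have hWD : ∀ t, (W t).card ≤ 2 * (D t).card := by
    intro t
    let S : Finset ((Fin R → Ω) × Ω) := ((W t) ×ˢ univ).filter fun q =>
      ¬ al (t.1 + 1) (Function.update q.1 t q.2)
    have hS1 : (W t).card * N ≤ 2 * S.card := by
      have : S.card = ∑ y ∈ W t, (univ.filter fun ω : Ω =>
          ¬ al (t.1 + 1) (Function.update y t ω)).card := by
        simp only [S]
        rw [Finset.card_filter, Finset.sum_product]
        refine Finset.sum_congr rfl fun y _ => ?_
        rw [Finset.card_filter]
      rw [this, Finset.mul_sum, ← smul_eq_mul, ← Finset.sum_const]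
      refine Finset.sum_le_sum fun y hy => ?_
      have hy2 : 2 * (univ.filter fun ω : Ω =>
          al (t.1 + 1) (Function.update y t ω)).card < N := (Finset.mem_filter.mp hy).2.2
      have hadd := Finset.card_filter_add_card_filter_not (s := (univ : Finset Ω))
        (fun ω : Ω => al (t.1 + 1) (Function.update y t ω))
      rw [Finset.card_univ] at hadd
      omega
    have hS2 : S.card ≤ (D t).card * N := by
      have : ((D t) ×ˢ (univ : Finset Ω)).card = (D t).card * N := by
        rw [Finset.card_product, Finset.card_univ]
      rw [← this]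
      refine Finset.card_le_card_of_injOn (fun q => (Function.update q.1 t q.2, q.1 t)) ?_ ?_
      · intro q hq
        have hq' := Finset.mem_filter.mp hq
        have hq1 : q.1 ∈ W t := (Finset.mem_product.mp hq'.1).1
        have hal : al t.1 q.1 := (Finset.mem_filter.mp hq1).2.1
        refine Finset.mem_product.mpr ⟨Finset.mem_filter.mpr ⟨Finset.mem_univ _, ?_, hq'.2⟩,
          Finset.mem_univ _⟩
        refine hdep t.1 q.1 _ ?_ hal
        intro i hi
        have : i ≠ t := fun h => by rw [h] at hi; exact lt_irrefl _ hi
        exact (Function.update_of_ne this _ _).symm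
      · intro q _ q' _ h
        have h1 := (Prod.mk.inj h).1
        have h2 := (Prod.mk.inj h).2
        refine Prod.ext ?_ ?_
        · funext i
          by_cases hi : i = t
          · rw [hi]; exact h2
          · have := congrFun h1 i
            rwa [Function.update_of_ne hi, Function.update_of_ne hi] at this
        · have := congrFun h1 t
          simpa using this
    have : (W t).card * N ≤ 2 * (D t).card * N := by
      calc (W t).card * N ≤ 2 * S.card := hS1
        _ ≤ 2 * ((D t).card * N) := Nat.mul_le_mul_left _ hS2
        _ = 2 * (D t).card * N := by ring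
    exact Nat.le_of_mul_le_mul_right this hNpos
  have hdec' : ∀ (a b : ℕ), a ≤ b → ∀ y, al b y → al a y := by
    intro a b hab
    induction b, hab using Nat.le_induction with
    | base => intro y h; exact h
    | succ n _ ih => intro y h; exact ih y (hdec n y h)
  have hD : ∑ t, (D t).card ≤ N ^ R := by
    have hdisj : ∀ t ∈ (univ : Finset (Fin R)), ∀ t' ∈ (univ : Finset (Fin R)), t ≠ t' →
        Disjoint (D t) (D t') := by
      intro t _ t' _ hne
      rw [Finset.disjoint_left]
      intro y hy hy'
      have h1 := (Finset.mem_filter.mp hy).2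
      have h2 := (Finset.mem_filter.mp hy').2
      rcases lt_or_gt_of_ne (fun h => hne (Fin.ext h) : t.1 ≠ t'.1) with h | h
      · exact h1.2 (hdec' (t.1 + 1) t'.1 h y h2.1)
      · exact h2.2 (hdec' (t'.1 + 1) t.1 h y h1.1)
    rw [← Finset.card_biUnion hdisj]
    calc _ ≤ (univ : Finset (Fin R → Ω)).card := Finset.card_le_univ _
      _ = N ^ R := by rw [Finset.card_univ]; simp [hN]
  have hW : ∑ t, (W t).card ≤ 2 * N ^ R := by
    calc ∑ t, (W t).card ≤ ∑ t, 2 * (D t).card := Finset.sum_le_sum fun t _ => hWD t
      _ = 2 * ∑ t, (D t).card := by rw [Finset.mul_sum]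
      _ ≤ 2 * N ^ R := Nat.mul_le_mul_left _ hD
  have hX0 : (0 : ℝ) ≤ Fintype.card X := Nat.cast_nonneg _
  have hpoint : ∀ (t : Fin R) (y : Fin R → Ω),
      ((univ.filter fun x => al t.1 y ∧ acc t y x).card : ℝ) ≤
        p * Fintype.card X + (if y ∈ W t then (Fintype.card X : ℝ) else 0) := by
    intro t y
    by_cases hal : al t.1 y
    · by_cases hy : y ∈ W t
      · rw [if_pos hy]
        have : ((univ.filter fun x => al t.1 y ∧ acc t y x).card : ℝ) ≤ Fintype.card X := by
          exact_mod_cast Finset.card_le_univ _
        have h0 : 0 ≤ p * Fintype.card X := mul_nonneg hp hX0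
        linarith
      · rw [if_neg hy, add_zero]
        have hle : N ≤ 2 * (univ.filter fun ω : Ω =>
            al (t.1 + 1) (Function.update y t ω)).card := by
          by_contra hcon
          push Not at hcon
          exact hy (Finset.mem_filter.mpr ⟨Finset.mem_univ _, hal, hcon⟩)
        refine le_trans ?_ (hacc t y hle)
        have : (univ.filter fun x => al t.1 y ∧ acc t y x) ⊆ univ.filter fun x => acc t y x := by
          intro x hx
          exact Finset.mem_filter.mpr ⟨Finset.mem_univ _, (Finset.mem_filter.mp hx).2.2⟩
        exact_mod_cast Finset.card_le_card this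
    · have : (univ.filter fun x => al t.1 y ∧ acc t y x) = ∅ := by
        refine Finset.filter_eq_empty_iff.mpr ?_
        intro x _ h
        exact hal h.1
      rw [this]
      have h0 : 0 ≤ p * Fintype.card X := mul_nonneg hp hX0
      have h1 : (0 : ℝ) ≤ (if y ∈ W t then (Fintype.card X : ℝ) else 0) := by
        split_ifs
        · exact hX0
        · exact le_rfl
      simp only [Finset.card_empty, Nat.cast_zero]
      linarith
  calc (∑ t : Fin R, ∑ y : Fin R → Ω, ((univ.filter fun x => al t.1 y ∧ acc t y x).card : ℝ))
      ≤ ∑ t : Fin R, ∑ y : Fin R → Ω,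
          (p * Fintype.card X + (if y ∈ W t then (Fintype.card X : ℝ) else 0)) :=
        Finset.sum_le_sum fun t _ => Finset.sum_le_sum fun y _ => hpoint t y
    _ = ∑ t : Fin R, ((N : ℝ) ^ R * (p * Fintype.card X) + (W t).card * Fintype.card X) := by
        refine Finset.sum_congr rfl fun t _ => ?_
        rw [Finset.sum_add_distrib, Finset.sum_const, Finset.card_univ, nsmul_eq_mul,
          ← Finset.sum_filter, Finset.sum_const, nsmul_eq_mul, Finset.filter_univ_mem]
        simp [hN]
    _ = p * R * (N : ℝ) ^ R * Fintype.card X + ((∑ t, (W t).card : ℕ) : ℝ) * Fintype.card X := by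
        rw [Finset.sum_add_distrib, Finset.sum_const, Finset.card_univ, Fintype.card_fin,
          nsmul_eq_mul, ← Finset.sum_mul]
        push_cast
        ring
    _ ≤ p * R * (N : ℝ) ^ R * Fintype.card X + (2 * (N : ℝ) ^ R) * Fintype.card X := by
        have : ((∑ t, (W t).card : ℕ) : ℝ) ≤ 2 * (N : ℝ) ^ R := by exact_mod_cast hW
        have := mul_le_mul_of_nonneg_right this hX0
        linarith
    _ = (p * R + 2) * (N : ℝ) ^ R * Fintype.card X := by ring

end Pool.Agent.H26.Mono
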