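import Pool.Agent.H1.Mono.Targets2

/-!
# Module INJ: few `y` fail to be injective along `α` on a small set
-/

open Finset

namespace Pool.Agent.H26.Mono

open Pool.Agent.H1.Mono

theorem inj : INJ_target := by
  intro ν a j Q _ _ I α hdec hI
  classical
  set T : ℕ := Fintype.card (Fin ν → Q → Fin a → Bool) with hT
  let E : Fin ν × Fin ν → Finset (Fin ν → Q → Fin a → Bool) := fun q =>
    univ.filter fun y => y q.1 (α q.1) = y q.2 (α q.2)
  have hE : ∀ q : Fin ν × Fin ν, q.1 ≠ q.2 → 2 ^ a * (E q).card ≤ T := by
    intro q hq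
    have h1 : ((univ : Finset (Fin a → Bool)) ×ˢ (E q)).card = 2 ^ a * (E q).card := by
      rw [Finset.card_product, Finset.card_univ]
      simp
    rw [← h1, hT, ← Finset.card_univ]
    refine Finset.card_le_card_of_injOn
      (fun r => Function.update r.2 q.1 (Function.update (r.2 q.1) (α q.1) r.1)) ?_ ?_
    · intro r _
      exact Finset.mem_coe.mpr (Finset.mem_univ _)
    · intro r hr r' hr' h
      have hre : r.2 q.1 (α q.1) = r.2 q.2 (α q.2) :=
        (Finset.mem_filter.mp (Finset.mem_product.mp (Finset.mem_coe.mp hr)).2).2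
      have hre' : r'.2 q.1 (α q.1) = r'.2 q.2 (α q.2) :=
        (Finset.mem_filter.mp (Finset.mem_product.mp (Finset.mem_coe.mp hr')).2).2
      have hat : ∀ i : Fin ν, i ≠ q.1 → r.2 i = r'.2 i := by
        intro i hi
        have := congrFun h i
        simpa only [Function.update_of_ne hi] using this
      have hq1 := congrFun h q.1
      simp only [Function.update_self] at hq1
      have hv : r.1 = r'.1 := by
        have := congrFun hq1 (α q.1)
        simpa only [Function.update_self] using this
      refine Prod.ext hv ?_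
      funext i
      by_cases hi : i = q.1
      · subst hi
        funext b
        by_cases hb : b = α q.1
        · subst hb
          rw [hre, hre', hat q.2 (Ne.symm hq)]
        · have := congrFun hq1 b
          simpa only [Function.update_of_ne hb] using this
      · exact hat i hi
  have hsub : (univ.filter fun y : Fin ν → Q → Fin a → Bool =>
      ¬ Set.InjOn (fun i => y i (α i)) I) ⊆ I.offDiag.biUnion E := by
    intro y hy
    have hy2 := (Finset.mem_filter.mp hy).2
    unfold Set.InjOn at hy2
    push Not at hy2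
    obtain ⟨i, hi, i', hi', heq, hne⟩ := hy2
    refine Finset.mem_biUnion.mpr ⟨(i, i'), Finset.mem_offDiag.mpr ⟨hi, hi', hne⟩, ?_⟩
    exact Finset.mem_filter.mpr ⟨Finset.mem_univ _, heq⟩
  calc 2 ^ a * (univ.filter fun y : Fin ν → Q → Fin a → Bool =>
      ¬ Set.InjOn (fun i => y i (α i)) I).card
      ≤ 2 ^ a * (I.offDiag.biUnion E).card := Nat.mul_le_mul_left _ (Finset.card_le_card hsub)
    _ ≤ 2 ^ a * ∑ q ∈ I.offDiag, (E q).card := Nat.mul_le_mul_left _ Finset.card_biUnion_le
    _ = ∑ q ∈ I.offDiag, 2 ^ a * (E q).card := by rw [Finset.mul_sum]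
    _ ≤ ∑ _q ∈ I.offDiag, T := Finset.sum_le_sum fun q hq =>
        hE q (Finset.mem_offDiag.mp hq).2.2
    _ = I.offDiag.card * T := by rw [Finset.sum_const, smul_eq_mul]
    _ ≤ j ^ 2 * T := by
        refine Nat.mul_le_mul_right _ ?_
        rw [Finset.offDiag_card]
        calc I.card * I.card - I.card ≤ I.card * I.card := Nat.sub_le _ _
          _ ≤ j * j := Nat.mul_le_mul hI hI
          _ = j ^ 2 := by ring

end Pool.Agent.H26.Mono
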