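import Pool.Agent.H1.Mono.Targets2

/-!
# Module NEG: a circuit with few negations is covered by few monotone circuits
-/

open Finset

namespace Pool.Agent.H26.Mono

open Pool.Agent.H1.Mono

lemma mon_val_eq {ι : Type} {s : ℕ} (C : MonCircuit ι s) (A : ι → Bool) (t : Fin s) :
    C.Val A t ↔ if C.isAnd t = true then (∀ i ∈ C.ins t, A i = true) ∧ ∀ u ∈ C.gates t, C.Val A u
      else (∃ i ∈ C.ins t, A i = true) ∨ ∃ u ∈ C.gates t, C.Val A u := by
  by_cases h : C.isAnd t = true
  · rw [if_pos h]; exact C.val_and A h
  · rw [if_neg h]; exact C.val_or A h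

lemma mon_mono {ι : Type} {s : ℕ} (C : MonCircuit ι s) {A A' : ι → Bool}
    (hA : ∀ i, A i = true → A' i = true) : ∀ (n : ℕ) (t : Fin s), t.1 = n →
    C.Val A t → C.Val A' t := by
  intro n
  induction n using Nat.strong_induction_on with
  | _ n ih =>
    intro t ht h
    rw [mon_val_eq] at h ⊢
    by_cases hi : C.isAnd t = true
    · rw [if_pos hi] at h ⊢
      refine ⟨fun i hi' => hA i (h.1 i hi'), fun u hu => ?_⟩
      have hlt : u.1 < n := by rw [← ht]; exact C.lt t u hu
      exact ih u.1 hlt u rfl (h.2 u hu)
    · rw [if_neg hi] at h ⊢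
      rcases h with ⟨i, hi1, hi2⟩ | ⟨u, hu, hv⟩
      · exact Or.inl ⟨i, hi1, hA i hi2⟩
      · have hlt : u.1 < n := by rw [← ht]; exact C.lt t u hu
        exact Or.inr ⟨u, hu, ih u.1 hlt u rfl hv⟩

/-- the monotone circuit in which the negated gates other than `u` are replaced by constants -/
noncomputable def mk {ι : Type} {s : ℕ} (C : Circuit ι s) (u : Fin s)
    (c : Fin s → Bool) : MonCircuit ι s where
  isAnd t := if C.neg t = true ∧ t ≠ u then c t else C.isAnd t
  ins t := if C.neg t = true ∧ t ≠ u then ∅ else C.ins t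
  gates t := if C.neg t = true ∧ t ≠ u then ∅ else C.gates t
  lt t v hv := by
    by_cases h : C.neg t = true ∧ t ≠ u
    · rw [if_pos h] at hv; simp at hv
    · rw [if_neg h] at hv; exact C.lt t v hv
  out := u

lemma mk_val_const {ι : Type} {s : ℕ} (C : Circuit ι s) (u : Fin s) (c : Fin s → Bool)
    (A : ι → Bool) (t : Fin s) (h : C.neg t = true ∧ t ≠ u) :
    (mk C u c).Val A t ↔ c t = true := by
  rw [mon_val_eq]
  have h1 : (mk C u c).isAnd t = c t := by simp only [mk]; rw [if_pos h]
  have h2 : (mk C u c).ins t = ∅ := by simp only [mk]; rw [if_pos h]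
  have h3 : (mk C u c).gates t = ∅ := by simp only [mk]; rw [if_pos h]
  rw [h1, h2, h3]
  by_cases hc : c t = true
  · simp [hc]
  · simp [hc]

lemma mk_val {ι : Type} {s : ℕ} (C : Circuit ι s) (u : Fin s) (c : Fin s → Bool)
    (A : ι → Bool) (hc : ∀ t : Fin s, C.neg t = true → t < u → (c t = true ↔ C.Val A t)) :
    ∀ (n : ℕ) (t : Fin s), t.1 = n → t < u → ((mk C u c).Val A t ↔ C.Val A t) := by
  intro n
  induction n using Nat.strong_induction_on with
  | _ n ih =>
    intro t ht htu
    by_cases h : C.neg t = true
    · rw [mk_val_const C u c A t ⟨h, ne_of_lt htu⟩]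
      exact hc t h htu
    · have hn : ¬ (C.neg t = true ∧ t ≠ u) := fun h' => h h'.1
      rw [mon_val_eq, C.val_eq, if_neg h]
      have h1 : (mk C u c).isAnd t = C.isAnd t := by simp only [mk]; rw [if_neg hn]
      have h2 : (mk C u c).ins t = C.ins t := by simp only [mk]; rw [if_neg hn]
      have h3 : (mk C u c).gates t = C.gates t := by simp only [mk]; rw [if_neg hn]
      rw [h1, h2, h3, Circuit.Inner]
      have key : ∀ v ∈ C.gates t, ((mk C u c).Val A v ↔ C.Val A v) := by
        intro v hv
        have hlt : v < t := C.lt t v hv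
        have hlt' : v.1 < n := by rw [← ht]; exact hlt
        exact ih v.1 hlt' v rfl (lt_trans hlt htu)
      by_cases hi : C.isAnd t = true
      · rw [if_pos hi, if_pos hi]
        exact and_congr Iff.rfl (forall₂_congr key)
      · rw [if_neg hi, if_neg hi]
        refine or_congr Iff.rfl (exists_congr fun v => ?_)
        exact and_congr_right fun hv => key v hv

lemma mk_val_out {ι : Type} {s : ℕ} (C : Circuit ι s) (u : Fin s) (c : Fin s → Bool)
    (A : ι → Bool) (hc : ∀ t : Fin s, C.neg t = true → t < u → (c t = true ↔ C.Val A t)) :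
    (mk C u c).Accepts A ↔ C.Inner A u := by
  have hn : ¬ (C.neg u = true ∧ u ≠ u) := fun h' => h'.2 rfl
  show (mk C u c).Val A u ↔ C.Inner A u
  rw [mon_val_eq]
  have h1 : (mk C u c).isAnd u = C.isAnd u := by simp only [mk]; rw [if_neg hn]
  have h2 : (mk C u c).ins u = C.ins u := by simp only [mk]; rw [if_neg hn]
  have h3 : (mk C u c).gates u = C.gates u := by simp only [mk]; rw [if_neg hn]
  rw [h1, h2, h3, Circuit.Inner]
  have key : ∀ v ∈ C.gates u, ((mk C u c).Val A v ↔ C.Val A v) := fun v hv =>
    mk_val C u c A hc v.1 v rfl (C.lt u v hv)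
  by_cases hi : C.isAnd u = true
  · rw [if_pos hi, if_pos hi]
    exact and_congr Iff.rfl (forall₂_congr key)
  · rw [if_neg hi, if_neg hi]
    refine or_congr Iff.rfl (exists_congr fun v => ?_)
    exact and_congr_right fun hv => key v hv

theorem neg : NEG_target := by
  intro ι s C
  classical
  let κ : Type := {u : Fin s // C.neg u = true ∨ u = C.out} × ({t : Fin s // C.neg t = true} → Bool)
  let ext : ({t : Fin s // C.neg t = true} → Bool) → Fin s → Bool := fun c t =>
    if h : C.neg t = true then c ⟨t, h⟩ else false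
  refine ⟨κ, inferInstance, fun k => mk C k.1.1 (ext k.2), ?_, ?_⟩
  · have h1 : Fintype.card {u : Fin s // C.neg u = true ∨ u = C.out} ≤ C.negs + 1 := by
      rw [Fintype.card_subtype]
      calc (univ.filter fun u => C.neg u = true ∨ u = C.out).card
          ≤ (insert C.out (univ.filter fun u => C.neg u = true)).card := by
            refine Finset.card_le_card ?_
            intro u hu
            rcases (Finset.mem_filter.mp hu).2 with h | h
            · exact Finset.mem_insert_of_mem (Finset.mem_filter.mpr ⟨Finset.mem_univ _, h⟩)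
            · rw [h]; exact Finset.mem_insert_self _ _
        _ ≤ C.negs + 1 := Finset.card_insert_le _ _
    have h2 : Fintype.card ({t : Fin s // C.neg t = true} → Bool) = 2 ^ C.negs := by
      rw [Fintype.card_fun, Fintype.card_bool, Fintype.card_subtype]
      rfl
    show Fintype.card ({u : Fin s // C.neg u = true ∨ u = C.out} ×
      ({t : Fin s // C.neg t = true} → Bool)) ≤ _
    rw [Fintype.card_prod, h2]
    exact Nat.mul_le_mul_right _ h1
  · intro A A' hAA hA hA'
    have hext : ∀ (B : ι → Bool) (t : Fin s), C.neg t = true →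
        (ext (fun t => decide (C.Val B t.1)) t = true ↔ C.Val B t) := by
      intro B t ht
      simp only [ext]
      rw [dif_pos ht]
      simp
    by_cases hall : ∀ t : Fin s, C.neg t = true → (C.Val A t ↔ C.Val A' t)
    · have hout : ¬ C.neg C.out = true := fun h => hA ((hall C.out h).mpr hA')
      refine ⟨(⟨C.out, Or.inr rfl⟩, fun t => decide (C.Val A t.1)), ?_, ?_⟩
      · show ¬ (mk C C.out (ext fun t => decide (C.Val A t.1))).Accepts A
        rw [mk_val_out C C.out _ A (fun t ht _ => hext A t ht)]
        intro h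
        apply hA
        show C.Val A C.out
        rw [C.val_eq, if_neg hout]
        exact h
      · show (mk C C.out (ext fun t => decide (C.Val A t.1))).Accepts A'
        rw [mk_val_out C C.out _ A' (fun t ht _ => (hext A t ht).trans (hall t ht))]
        have h : C.Val A' C.out := hA'
        rw [C.val_eq, if_neg hout] at h
        exact h
    · push Not at hall
      have hex : ∃ n : ℕ, ∃ t : Fin s, t.1 = n ∧ C.neg t = true ∧ ¬ (C.Val A t ↔ C.Val A' t) := by
        obtain ⟨t, ht, h⟩ := hall
        refine ⟨t.1, t, rfl, ht, ?_⟩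
        intro h'
        rcases h with ⟨h1, h2⟩ | ⟨h1, h2⟩
        · exact h2 (h'.mp h1)
        · exact h1 (h'.mpr h2)
      obtain ⟨u, hu1, hu2, hu3⟩ := Nat.find_spec hex
      have hmin : ∀ t : Fin s, C.neg t = true → t < u → (C.Val A t ↔ C.Val A' t) := by
        intro t ht htu
        by_contra hcon
        have htu' : t.1 < Nat.find hex := by rw [← hu1]; exact htu
        exact Nat.find_min hex htu' ⟨t, rfl, ht, hcon⟩
      have e1 := mk_val_out C u (ext fun t => decide (C.Val A t.1)) A
        (fun t ht _ => hext A t ht)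
      have e2 := mk_val_out C u (ext fun t => decide (C.Val A t.1)) A'
        (fun t ht htu => (hext A t ht).trans (hmin t ht htu))
      have v1 := C.val_eq A u
      have v2 := C.val_eq A' u
      rw [if_pos hu2] at v1 v2
      have hne : ¬ ((mk C u (ext fun t => decide (C.Val A t.1))).Accepts A ↔
          (mk C u (ext fun t => decide (C.Val A t.1))).Accepts A') := by
        intro h
        apply hu3
        rw [v1, v2]
        exact not_congr ((e1.symm.trans h).trans e2)
      have hmono : (mk C u (ext fun t => decide (C.Val A t.1))).Accepts A →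
          (mk C u (ext fun t => decide (C.Val A t.1))).Accepts A' :=
        mon_mono _ hAA u.1 u rfl
      refine ⟨(⟨u, Or.inl hu2⟩, fun t => decide (C.Val A t.1)), ?_, ?_⟩
      · intro h
        exact hne ⟨hmono, fun _ => h⟩
      · by_contra h
        exact hne ⟨hmono, fun h' => absurd h' h⟩

end Pool.Agent.H26.Mono
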